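import Mathlib
import Pool.Agent.H.MP_38d52f_an.C

set_option autoImplicit false

open Filter Topology Set Function

namespace Pool.Agent.Results.MP_b81f9a_an.No

open Pool.Agent.H.MP_38d52f_an

/-- The Le Roy type Mittag-Leffler function at a real argument. -/
noncomputable def F (α β γ z : ℝ) : ℝ := ∑' n : ℕ, z ^ n / Real.Gamma (α * n + β) ^ γ

noncomputable def R (s : ℝ) : ℝ := (s + 9 / 7) ^ 2 / ((s + 1) * (s + 2) * (s + 3) * (s + 4))

noncomputable def q (y : ℝ) : ℝ :=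
  1 / 6 * (1 - y) * (4 / 49 * (1 - y) ^ 2 - 9 / 7 * y * (1 - y) + 6 * y ^ 2)

theorem R_pos {s : ℝ} (hs : 0 ≤ s) : 0 < R s := by unfold R; positivity

theorem q_int (m : ℕ) : ∫ y in (0 : ℝ)..1, y ^ m * q y = R m := by
  have e : ∀ y : ℝ, y ^ m * q y = 2 / 147 * y ^ m - 25 / 98 * y ^ (m + 1) + 72 / 49 * y ^ (m + 2)
      - 361 / 294 * y ^ (m + 3) := fun y => by simp only [q, pow_succ]; ring
  simp_rw [e]
  rw [intervalIntegral.integral_sub, intervalIntegral.integral_add, intervalIntegral.integral_sub]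
  · simp only [intervalIntegral.integral_const_mul, integral_pow, one_pow, ne_eq,
      Nat.add_eq_zero_iff, one_ne_zero, and_false, not_false_eq_true, zero_pow, sub_zero, R]
    push_cast
    field_simp
    ring
  all_goals exact Continuous.intervalIntegrable (by fun_prop) _ _

noncomputable def Q (K : ℕ) (s : ℝ) : ℝ := ∏ k ∈ Finset.range K, R (s + 4 * k)

theorem Q_pos (K : ℕ) {s : ℝ} (hs : 0 ≤ s) : 0 < Q K s :=
  Finset.prod_pos (fun k _ => R_pos (by positivity))

noncomputable def c (K j : ℕ) : ℝ := Q K j * (1 / Real.Gamma (1 * j + 1))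

theorem R_le {s : ℝ} (hs : 0 ≤ s) : R s ≤ 1 := by
  rw [R, div_le_one (by positivity)]
  have : (s + 9 / 7) ^ 2 ≤ (s + 2) * (s + 3) := by nlinarith
  have h2 : 1 ≤ (s + 1) * (s + 4) := by nlinarith
  nlinarith

theorem c_ent (K : ℕ) : Ent (c K) := by
  refine (ent_gamma (β := 1) (b := 1) one_pos le_rfl).mono (fun j => ?_)
  rw [c, abs_mul, abs_of_pos (Q_pos K (by positivity))]
  exact mul_le_of_le_one_left (abs_nonneg _)
    (Finset.prod_le_one (fun k _ => (R_pos (by positivity)).le) (fun k _ => R_le (by positivity)))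

theorem c_good (K : ℕ) : ∀ a : ℝ, 0 ≤ a → Cn (fun t => S (c K) (a * t)) := by
  induction K with
  | zero =>
    intro a ha
    refine Cn_congr (Cn_exp ha) (fun t _ => ?_)
    rw [← cf_zero0 0]
    congr 1; funext j; simp [c, cf, Q, P]
  | succ K ih =>
    intro a ha
    have hc := (c_ent K).smooth.continuous
    have hq : Continuous q := by unfold q; fun_prop
    have h := Cn_int (F := fun y t => y ^ (4 * K) * q y * S (c K) (y * a * t))
      (fun y hy => Cn_smul (ih (y * a) (mul_nonneg hy.1 ha)) (mul_nonneg (pow_nonneg hy.1 _)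
        (mul_nonneg (by nlinarith [hy.2]) (by nlinarith [sq_nonneg (2 / 7 * (1 - y) - 9 / 4 * y), sq_nonneg y]))))
      (fun t _ => Continuous.intervalIntegrable (by fun_prop) _ _)
    refine Cn_congr h (fun t _ => ?_)
    have h2 := int_S (c_ent K) (ρ := fun y => y ^ (4 * K) * q y) (g := fun y => y) (by fun_prop)
      continuous_id (fun y hy => by rw [abs_of_nonneg hy.1]; exact hy.2) (a * t)
    simp only [← mul_assoc] at h2
    rw [h2]
    congr 1; funext j
    have : ∀ y : ℝ, y ^ (4 * K) * q y * y ^ j = y ^ (j + 4 * K) * q y := fun y => by ring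
    simp_rw [this]
    rw [q_int, c, c, Q, Q, Finset.prod_range_succ]
    push_cast; ring

theorem prod4 (K : ℕ) (s : ℝ) : ∏ j ∈ Finset.range (4 * K + 3 + 1), (1 + s + j) =
    ∏ k ∈ Finset.range (K + 1), ((s + 4 * k + 1) * (s + 4 * k + 2) * (s + 4 * k + 3) *
      (s + 4 * k + 4)) := by
  induction K with
  | zero => simp [Finset.prod_range_succ]; ring
  | succ K ih =>
    rw [show 4 * (K + 1) + 3 + 1 = 4 * K + 3 + 1 + 1 + 1 + 1 + 1 by ring, Finset.prod_range_succ,
      Finset.prod_range_succ, Finset.prod_range_succ, Finset.prod_range_succ, ih,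
      Finset.prod_range_succ _ (K + 1)]
    push_cast; ring

noncomputable def m (K : ℕ) (s : ℝ) : ℝ :=
  Real.GammaSeq (1 + s) (4 * K + 3) / Real.GammaSeq (9 / 28 + s / 4) K ^ 2

noncomputable def A (K : ℕ) : ℝ := (4 * K + 3) * ((4 * K + 3).factorial : ℝ) /
  ((K : ℝ) ^ (9 / 28 : ℝ) * K.factorial) ^ 2 * (1 / 16) ^ (K + 1)

noncomputable def B (K : ℕ) : ℝ := (4 * K + 3) / Real.sqrt K

theorem m_eq {K : ℕ} (hK : 1 ≤ K) (j : ℕ) : m K j = A K * B K ^ j * Q (K + 1) j := by
  have hK' : (0 : ℝ) < K := by exact_mod_cast hK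
  have e1 : Q (K + 1) j * (1 / 16) ^ (K + 1) = (∏ k ∈ Finset.range (K + 1), (9 / 28 + j / 4 + k : ℝ)) ^ 2 /
      ∏ i ∈ Finset.range (4 * K + 3 + 1), (1 + j + i : ℝ) := by
    rw [prod4, ← Finset.prod_pow, ← Finset.prod_div_distrib, Q,
      ← Finset.card_range (K + 1), ← Finset.prod_const, Finset.card_range,
      ← Finset.prod_mul_distrib]
    refine Finset.prod_congr rfl (fun k _ => ?_)
    rw [R]; field_simp; ring
  have e2 : ((4 * K + 3 : ℕ) : ℝ) ^ (1 + j : ℝ) = (4 * K + 3) * (4 * K + 3) ^ j := by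
    rw [Real.rpow_add (by positivity), Real.rpow_one, Real.rpow_natCast]; push_cast; ring
  have e3 : ((K : ℝ) ^ (9 / 28 + j / 4 : ℝ)) ^ 2 = ((K : ℝ) ^ (9 / 28 : ℝ)) ^ 2 * Real.sqrt K ^ j := by
    rw [Real.sqrt_eq_rpow, ← Real.rpow_natCast, ← Real.rpow_natCast, ← Real.rpow_natCast,
      ← Real.rpow_mul hK'.le, ← Real.rpow_mul hK'.le, ← Real.rpow_mul hK'.le, ← Real.rpow_add hK']
    congr 1; push_cast; ring
  have p1 : ∏ i ∈ Finset.range (4 * K + 3 + 1), (1 + j + i : ℝ) ≠ 0 :=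
    Finset.prod_ne_zero_iff.2 (fun j _ => by positivity)
  have p2 : ∏ k ∈ Finset.range (K + 1), (9 / 28 + j / 4 + k : ℝ) ≠ 0 :=
    Finset.prod_ne_zero_iff.2 (fun j _ => by positivity)
  have p3 : (K : ℝ) ^ (9 / 28 : ℝ) ≠ 0 := (Real.rpow_pos_of_pos hK' _).ne'
  have p4 : Real.sqrt K ≠ 0 := (Real.sqrt_pos.2 hK').ne'
  have p5 : (K.factorial : ℝ) ≠ 0 := by positivity
  have : A K * B K ^ j * Q (K + 1) j = (4 * K + 3) * ((4 * K + 3).factorial : ℝ) /
      ((K : ℝ) ^ (9 / 28 : ℝ) * K.factorial) ^ 2 * B K ^ j * (Q (K + 1) j * (1 / 16) ^ (K + 1)) := by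
    rw [A]; ring
  rw [this, e1, m, Real.GammaSeq, Real.GammaSeq, e2, div_pow, mul_pow, e3, B, div_pow]
  field_simp

theorem m_lim (j : ℕ) : Tendsto (fun K => m K j) atTop
    (𝓝 (Real.Gamma (1 + j) / Real.Gamma (9 / 28 + j / 4) ^ 2)) := by
  have h : Tendsto (fun K : ℕ => 4 * K + 3) atTop atTop :=
    tendsto_atTop_mono (fun K => by show K ≤ 4 * K + 3; omega) tendsto_id
  exact ((Real.GammaSeq_tendsto_Gamma _).comp h).div ((Real.GammaSeq_tendsto_Gamma _).pow 2)
    (pow_pos (Real.Gamma_pos_of_pos (by positivity)) 2).ne'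

noncomputable def M (K j : ℕ) : ℝ := B K ^ j * Q (K + 1) j / Q (K + 1) 0

noncomputable def M' (K j : ℕ) : ℝ := (2 * Real.sqrt (4 * K + 1)) ^ j * Q (K + 1) j / Q (K + 1) 0

noncomputable def L (j : ℕ) : ℝ :=
  Real.Gamma (1 + j) / Real.Gamma (9 / 28 + j / 4) ^ 2 * Real.Gamma (9 / 28) ^ 2

theorem M_lim (j : ℕ) : Tendsto (fun K => M K j) atTop (𝓝 (L j)) := by
  have hG := Real.Gamma_pos_of_pos (show (0 : ℝ) < 9 / 28 by norm_num)
  have h0 := m_lim 0
  simp only [Nat.cast_zero, add_zero, zero_div, Real.Gamma_one] at h0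
  have h := (m_lim j).div h0 (by positivity)
  rw [div_div_eq_mul_div, div_one] at h
  refine h.congr' ?_
  filter_upwards [eventually_ge_atTop 1] with K hK
  have hK' : (0 : ℝ) < K := by exact_mod_cast hK
  have h1 := m_eq hK 0
  simp only [Nat.cast_zero, pow_zero, mul_one] at h1
  have hA : A K ≠ 0 := by
    have := Real.rpow_pos_of_pos hK' (9 / 28 : ℝ)
    unfold A; positivity
  simp only [Pi.div_apply]
  rw [m_eq hK j, h1, M, mul_assoc, mul_div_mul_left _ _ hA]

theorem M'_mono (j : ℕ) : Monotone (fun K => M' K j) := by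
  refine monotone_nat_of_le_succ (fun K => ?_)
  have hK : (0 : ℝ) ≤ K := by positivity
  have hj : (0 : ℝ) ≤ j := by positivity
  set x : ℝ := 4 * K + 4 with hx
  have hx0 : 4 ≤ x := by linarith
  set u : ℝ := 1 / (x + 1) with hu
  have hu0 : 0 < u := by positivity
  have hux : u * (x + 1) = 1 := by rw [hu]; field_simp
  have s1 : 2 * Real.sqrt (4 * K + 1) * (1 + u) ^ 2 ≤ 2 * Real.sqrt (4 * ((K + 1 : ℕ) : ℝ) + 1) := by
    rw [mul_assoc]
    refine mul_le_mul_of_nonneg_left (Real.le_sqrt_of_sq_le ?_) (by norm_num)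
    rw [mul_pow, Real.sq_sqrt (by positivity)]
    have e : (4 * K + 1 : ℝ) = (x + 1) * (1 - 4 * u) := by nlinarith
    have e' : 4 * ((K + 1 : ℕ) : ℝ) + 1 = x + 1 := by push_cast; linarith
    rw [e, e', mul_assoc]
    refine mul_le_of_le_one_right (by linarith) ?_
    nlinarith [pow_pos hu0 2, pow_pos hu0 3, pow_pos hu0 4, pow_pos hu0 5]
  have s2 : R x ≤ ((1 + u) ^ 2) ^ j * R (j + x) := by
    have b1 : 1 + j * u ≤ (1 + u) ^ j := one_add_mul_le_pow (by linarith) j
    have b2 : (1 + j * u) ^ 2 ≤ ((1 + u) ^ 2) ^ j := by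
      rw [← pow_mul, mul_comm 2 j, pow_mul]; exact pow_le_pow_left₀ (by positivity) b1 2
    refine le_trans ?_ (mul_le_mul_of_nonneg_right b2 (R_pos (by positivity)).le)
    have t1 : (j + x + 1) = (1 + j * u) * (x + 1) := by nlinarith
    have t2 : (j + x + 4) ≤ (1 + j * u) * (x + 4) := by nlinarith [mul_nonneg hj hu0.le]
    have t3 : (x + 9 / 7) * (j + x + 2) ≤ (j + x + 9 / 7) * (x + 2) := by nlinarith
    have t4 : (x + 9 / 7) * (j + x + 3) ≤ (j + x + 9 / 7) * (x + 3) := by nlinarith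
    rw [R, R, ← mul_div_assoc, div_le_div_iff₀ (by positivity) (by positivity)]
    have := mul_le_mul (mul_le_mul t1.le t2 (by positivity) (by positivity))
      (mul_le_mul t3 t4 (by positivity) (by positivity)) (by positivity) (by positivity)
    calc _ = (j + x + 1) * (j + x + 4) * ((x + 9 / 7) * (j + x + 2) * ((x + 9 / 7) * (j + x + 3))) := by
          ring
      _ ≤ _ := this
      _ = _ := by ring
  have e1 : Q (K + 1 + 1) j = Q (K + 1) j * R (j + x) := by
    rw [Q, Finset.prod_range_succ, Q]; congr 2; push_cast; ring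
  have e2 : Q (K + 1 + 1) 0 = Q (K + 1) 0 * R x := by
    rw [Q, Finset.prod_range_succ, Q]; congr 2; push_cast; ring
  have q0 := Q_pos (K + 1) (le_refl (0 : ℝ))
  have q1 := Q_pos (K + 1) hj
  have r0 := R_pos (show 0 ≤ x by linarith)
  have r1 := R_pos (show 0 ≤ j + x by linarith)
  simp only [M']
  rw [e1, e2, div_le_div_iff₀ q0 (by positivity)]
  have s3 := pow_le_pow_left₀ (by positivity) s1 j
  rw [mul_pow] at s3
  have p0 : 0 ≤ (2 * Real.sqrt (4 * K + 1)) ^ j := by positivity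
  have s4 : (2 * Real.sqrt (4 * K + 1)) ^ j * R x ≤
      (2 * Real.sqrt (4 * ((K + 1 : ℕ) : ℝ) + 1)) ^ j * R (j + x) :=
    (mul_le_mul_of_nonneg_left s2 p0).trans (by
      rw [← mul_assoc]; exact mul_le_mul_of_nonneg_right s3 r1.le)
  nlinarith [mul_le_mul_of_nonneg_left s4 (mul_pos q0 q1).le]

theorem B_cmp {K : ℕ} (hK : 1 ≤ K) :
    2 * Real.sqrt (4 * K + 1) ≤ B K ∧ B K ≤ 2 * (2 * Real.sqrt (4 * K + 1)) := by
  have hK' : (1 : ℝ) ≤ K := by exact_mod_cast hK
  have h1 : 0 < Real.sqrt K := Real.sqrt_pos.2 (by linarith)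
  have h2 := Real.sq_sqrt (show (0 : ℝ) ≤ K by linarith)
  have h3 := Real.sq_sqrt (show (0 : ℝ) ≤ 4 * K + 1 by linarith)
  have h4 := Real.sqrt_nonneg (4 * K + 1 : ℝ)
  rw [B, le_div_iff₀ h1, div_le_iff₀ h1]
  constructor
  · refine (pow_le_pow_iff_left₀ (by positivity) (by linarith) two_ne_zero).1 ?_
    rw [mul_pow, mul_pow, h2, h3]; nlinarith
  · refine (pow_le_pow_iff_left₀ (by positivity) (by positivity) two_ne_zero).1 ?_
    rw [mul_pow, mul_pow, mul_pow, h2, h3]; nlinarith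

theorem M_le {K : ℕ} (hK : 1 ≤ K) (j : ℕ) : M K j ≤ 2 ^ j * L j := by
  have hj : (0 : ℝ) ≤ j := by positivity
  have h1 : M' K j ≤ L j := by
    refine ge_of_tendsto (M_lim j) ?_
    filter_upwards [eventually_ge_atTop K] with N hN
    refine (M'_mono j hN).trans ?_
    have q0 := Q_pos (N + 1) (le_refl (0 : ℝ))
    have q1 := Q_pos (N + 1) hj
    exact div_le_div_of_nonneg_right (mul_le_mul_of_nonneg_right
      (pow_le_pow_left₀ (by positivity) (B_cmp (hK.trans hN)).1 j) q1.le) q0.le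
  refine le_trans ?_ (mul_le_mul_of_nonneg_left h1 (by positivity))
  have q0 := Q_pos (K + 1) (le_refl (0 : ℝ))
  have q1 := Q_pos (K + 1) hj
  rw [M, M', ← mul_div_assoc, ← mul_assoc, ← mul_pow]
  have : 0 ≤ B K := by unfold B; positivity
  exact div_le_div_of_nonneg_right (mul_le_mul_of_nonneg_right
    (pow_le_pow_left₀ this (B_cmp hK).2 j) q1.le) q0.le

noncomputable def d (j : ℕ) : ℝ := 1 / Real.Gamma (9 / 28 + j / 4) ^ 2

theorem d_ent : Ent d := by
  intro r hr
  rw [← summable_nat_add_iff 3]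
  have h := (ent_gamma (β := 1 / 4) (b := 15 / 14) (by norm_num) (by norm_num) r hr).mul_left
    (Real.exp 1 * r ^ 3)
  refine Summable.of_nonneg_of_le (fun j => by positivity) (fun j => ?_) h
  have e : (9 / 28 + ((j + 3 : ℕ) : ℝ) / 4) = 1 / 4 * j + 15 / 14 := by push_cast; ring
  have hj : (0 : ℝ) ≤ j := by positivity
  have hG := Real.Gamma_pos_of_pos (show (0 : ℝ) < 1 / 4 * j + 15 / 14 by positivity)
  have h1 := gamma_lb (s := 1 / 4 * j + 15 / 14) (R := 1) (by linarith) one_pos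
  rw [Real.one_rpow, one_mul] at h1
  have h2 : 1 ≤ Real.exp 1 * Real.Gamma (1 / 4 * j + 15 / 14) := by
    have := mul_le_mul_of_nonneg_left h1 (Real.exp_pos 1).le
    rwa [← Real.exp_add, add_neg_cancel, Real.exp_zero] at this
  rw [d, e, abs_of_pos (by positivity), abs_of_pos (by positivity), pow_add]
  have h3 : 1 / Real.Gamma (1 / 4 * j + 15 / 14) ^ 2 ≤
      Real.exp 1 * (1 / Real.Gamma (1 / 4 * j + 15 / 14)) := by
    rw [mul_one_div, div_le_div_iff₀ (by positivity) hG]; nlinarith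
  nlinarith [mul_le_mul_of_nonneg_right h3 (show 0 ≤ r ^ j * r ^ 3 by positivity)]

theorem result : ∃ α β γ : ℝ, 0 < α ∧ 0 < β ∧ 0 < γ ∧
    ContDiffOn ℝ ⊤ (fun x => F α β γ (-x)) (Ioi 0) ∧
    (∀ (k : ℕ) (x : ℝ), 0 < x → 0 ≤ (-1) ^ k * iteratedDeriv k (fun x => F α β γ (-x)) x) ∧
    ∃ z ∈ Ioo (0 : ℝ) 1, 1 < z + γ * (z ^ (β - α) - z ^ β) := by
  have hG := Real.Gamma_pos_of_pos (show (0 : ℝ) < 9 / 28 by norm_num)
  have e : (fun x => F (1 / 4) (9 / 28) 2 (-x)) = S d := by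
    funext x
    refine tsum_congr (fun j => ?_)
    rw [Real.rpow_two, d, show (1 / 4 * j + 9 / 28 : ℝ) = 9 / 28 + j / 4 by ring]; ring
  have hC : Cn (S d) := by
    refine Cn_lim (l := atTop) (F := fun K : ℕ => fun t =>
      (1 / (Real.Gamma (9 / 28) ^ 2 * Q (K + 1) 0)) * S (c (K + 1)) (B K * t))
      (Eventually.of_forall (fun K => Cn_smul (c_good _ _ (by unfold B; positivity))
        (by have := Q_pos (K + 1) (le_refl (0 : ℝ)); positivity))) (fun t _ => ?_)
    have hg : ∀ j : ℕ, 0 < Real.Gamma (1 + j) := fun j => Real.Gamma_pos_of_pos (by positivity)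
    have e2 : ∀ K : ℕ, (1 / (Real.Gamma (9 / 28) ^ 2 * Q (K + 1) 0)) * S (c (K + 1)) (B K * t) =
        ∑' j : ℕ, M K j / (Real.Gamma (9 / 28) ^ 2 * Real.Gamma (1 + j)) * (-t) ^ j := by
      intro K
      rw [S, ← tsum_mul_left]
      refine tsum_congr (fun j => ?_)
      have := (Q_pos (K + 1) (le_refl (0 : ℝ))).ne'
      have := (hg j).ne'
      rw [c, M, show (1 * j + 1 : ℝ) = 1 + j by ring, show -(B K * t) = B K * -t by ring, mul_pow]
      field_simp
    have e3 : ∀ j : ℕ, d j = L j / (Real.Gamma (9 / 28) ^ 2 * Real.Gamma (1 + j)) := by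
      intro j
      have := (hg j).ne'
      rw [d, L]; field_simp
    simp_rw [e2]
    refine tendsto_tsum_of_dominated_convergence (d_ent (2 * |t|) (by positivity)) (fun j => ?_) ?_
    · rw [e3]; exact ((M_lim j).div_const _).mul_const _
    · filter_upwards [eventually_ge_atTop 1] with K hK j
      have hM0 : 0 ≤ M K j := by
        have := Q_pos (K + 1) (le_refl (0 : ℝ))
        have := Q_pos (K + 1) (show (0 : ℝ) ≤ j by positivity)
        unfold M B; positivity
      have := hg j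
      rw [norm_mul, norm_pow, norm_neg, Real.norm_eq_abs, Real.norm_eq_abs,
        abs_of_nonneg (by positivity), mul_pow, ← mul_assoc]
      refine mul_le_mul_of_nonneg_right ?_ (by positivity)
      refine le_trans ?_ (mul_le_mul_of_nonneg_right (le_abs_self _) (by positivity))
      rw [e3, div_mul_eq_mul_div, mul_comm (L j)]
      exact div_le_div_of_nonneg_right (M_le hK j) (by positivity)
  refine ⟨1 / 4, 9 / 28, 2, by norm_num, by norm_num, by norm_num, ?_, ?_, (4 / 5) ^ 28,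
    ⟨by positivity, by norm_num⟩, ?_⟩
  · rw [e]; exact d_ent.smooth.contDiffOn
  · rw [e]; exact fun k x hx => Cn_nonneg (Cn_iter k hC d_ent.smooth) hx
  · have h : ∀ n : ℕ, (((4 / 5 : ℝ)) ^ 28) ^ ((n : ℝ) / 28) = (4 / 5) ^ n := by
      intro n
      rw [← Real.rpow_natCast, ← Real.rpow_mul (by norm_num), ← Real.rpow_natCast]
      congr 1; push_cast; ring
    have h2 := h 2
    have h9 := h 9
    push_cast at h2 h9
    rw [show (9 / 28 - 1 / 4 : ℝ) = 2 / 28 by norm_num, h2, h9]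
    norm_num

end Pool.Agent.Results.MP_b81f9a_an.No
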